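import Pool.Agent.H351Z.RMain

set_option autoImplicit false

namespace Pool.Agent.Results.MP_42d591_pr.ASharpThreshold

open Filter Topology Pool.Agent.H351Z.RG in
/-- For `d = α n` there is a function of order `1 / n` that is both a sharp `d`-threshold for
Hamiltonicity and a sharp threshold for `G(n - d, p)` to contain a linear forest with `n - 2 d`
edges. -/
theorem result (α : ℝ) (h0 : 0 < α) (h1 : α < 1 / 2) (d : ℕ → ℕ)
    (hd : Tendsto (fun n => (d n : ℝ) / n) atTop (𝓝 α)) :
    ∃ ps : ℕ → ℝ, (∃ c C : ℝ, 0 < c ∧ ∀ᶠ n : ℕ in atTop, c / n ≤ ps n ∧ ps n ≤ C / n) ∧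
      IsSharpDThreshold (fun _ G => G.IsHamiltonian) d ps ∧
      IsSharpThreshold (fun n => n - d n) (fun n G => HasLinearForest G (n - 2 * d n)) ps :=
  final h0 h1 hd

end Pool.Agent.Results.MP_42d591_pr.ASharpThreshold
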